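import Pool.Agent.Lib.Helper36.LusinNovikov

set_option autoImplicit false

namespace Pool.Agent.P.MP_91e65d_lc

open Set MeasureTheory Filter Topology

variable {X : Type*}

lemma hasSum_abs (u : lp (fun _ : X => ℝ) 1) : HasSum (fun z => |u z|) ‖u‖ := by
  simpa using lp.hasSum_norm (p := 1) (by simp) u

variable [MeasurableSpace X]

/-- A Borel assignment of probability vectors supported on the classes of `E`. -/
structure Mean (E : Setoid X) where
  v : X → lp (fun _ : X => ℝ) 1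
  meas : Measurable fun p : X × X => v p.1 p.2
  nonneg : ∀ x z, 0 ≤ v x z
  supp : ∀ x z, ¬ E x z → v x z = 0
  sum : ∀ x, HasSum (v x) 1

variable {E : Setoid X}

lemma Mean.norm_eq (g : Mean E) (x : X) : ‖g.v x‖ = 1 := by
  refine (hasSum_abs (g.v x)).unique ?_
  simpa only [abs_of_nonneg (g.nonneg x _)] using g.sum x

lemma Mean.dist_le (g : Mean E) (x y : X) : ‖g.v x - g.v y‖ ≤ 2 := by
  refine (norm_sub_le _ _).trans ?_
  rw [g.norm_eq, g.norm_eq]
  norm_num

/-- Sums over classes are measurable, given a measurable enumeration of the classes. -/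
lemma measurable_tsum_class [MeasurableEq X] {φ : ℕ → X → X} (hφ : ∀ n, Measurable (φ n))
    (hφ3 : ∀ x y, E x y → ∃ n, φ n x = y) {u : X × X → ℝ} (hu : Measurable u)
    (hs : ∀ x z, ¬ E x z → u (x, z) = 0) : Measurable fun x => ∑' z, u (x, z) := by
  classical
  have key : ∀ x, ∑' z, u (x, z) =
      ∑' k : ℕ, ({x | ∀ l < k, φ l x ≠ φ k x}).indicator (fun x => u (x, φ k x)) x := by
    intro x
    have hinj : Function.Injective (fun k : {k : ℕ | ∀ l < k, φ l x ≠ φ k x} => φ k.1 x) := by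
      rintro ⟨a, ha⟩ ⟨b, hb⟩ hab
      rcases lt_trichotomy a b with h | h | h
      · exact absurd hab (hb a h)
      · exact Subtype.ext h
      · exact absurd hab.symm (ha b h)
    have hsupp : Function.support (fun z => u (x, z)) ⊆
        range (fun k : {k : ℕ | ∀ l < k, φ l x ≠ φ k x} => φ k.1 x) := by
      intro z hz
      have hE : E x z := by
        by_contra h
        exact hz (hs x z h)
      have hex := hφ3 x z hE
      refine ⟨⟨Nat.find hex, fun l hl h => Nat.find_min hex hl ?_⟩, Nat.find_spec hex⟩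
      rw [h]; exact Nat.find_spec hex
    rw [← hinj.tsum_eq hsupp]
    rw [tsum_subtype {k : ℕ | ∀ l < k, φ l x ≠ φ k x} (fun k => u (x, φ k x))]
    rfl
  rw [funext key]
  refine Measurable.tsum fun k => Measurable.indicator (hu.comp (measurable_id.prodMk (hφ k))) ?_
  simp only [ofPred_forall]
  refine MeasurableSet.iInter fun l => MeasurableSet.iInter fun _ => ?_
  exact (measurableSet_eq_fun (hφ l) (hφ k)).compl

lemma Mean.measurable_dist [MeasurableEq X] {φ : ℕ → X → X} (hφ : ∀ n, Measurable (φ n))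
    (hφ3 : ∀ x y, E x y → ∃ n, φ n x = y) (g : Mean E) {ψ : X → X} (hψ : Measurable ψ)
    (hψ2 : ∀ x, E x (ψ x)) : Measurable fun x => ‖g.v x - g.v (ψ x)‖ := by
  have : (fun x => ‖g.v x - g.v (ψ x)‖) =
      fun x => ∑' z, (fun p : X × X => |g.v p.1 p.2 - g.v (ψ p.1) p.2|) (x, z) := by
    funext x
    rw [← (hasSum_abs _).tsum_eq]
    rfl
  rw [this]
  refine measurable_tsum_class (u := fun p : X × X => |g.v p.1 p.2 - g.v (ψ p.1) p.2|)
    hφ hφ3 ?_ ?_
  · exact (g.meas.sub (g.meas.comp ((hψ.comp measurable_fst).prodMk measurable_snd))).abs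
  · intro x z h
    have h2 : ¬ E (ψ x) z := fun h' => h (E.trans (hψ2 x) h')
    simp [g.supp x z h, g.supp _ z h2]

/-- The average of the first `θ x + 1` members of a sequence of means. -/
noncomputable def Mean.avg (g : ℕ → Mean E) (θ : X → ℕ) (hθ : Measurable θ) : Mean E where
  v x := ((θ x : ℝ) + 1)⁻¹ • ∑ m ∈ Finset.range (θ x + 1), (g m).v x
  meas := by
    have h1 : Measurable fun q : (X × X) × ℕ =>
        ((q.2 : ℝ) + 1)⁻¹ * ∑ m ∈ Finset.range (q.2 + 1), (g m).v q.1.1 q.1.2 :=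
      measurable_from_prod_countable_left fun n =>
        (Finset.measurable_sum (Finset.range (n + 1)) fun m _ => (g m).meas).const_mul
          ((n : ℝ) + 1)⁻¹
    have h2 := h1.comp (measurable_id.prodMk (hθ.comp measurable_fst))
    convert h2 using 2 with p
    simp only [lp.coeFn_smul, lp.coeFn_sum, Pi.smul_apply, Finset.sum_apply, smul_eq_mul]
    rfl
  nonneg x z := by
    simp only [lp.coeFn_smul, lp.coeFn_sum, Pi.smul_apply, Finset.sum_apply, smul_eq_mul]
    exact mul_nonneg (by positivity) (Finset.sum_nonneg fun m _ => (g m).nonneg x z)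
  supp x z h := by
    simp only [lp.coeFn_smul, lp.coeFn_sum, Pi.smul_apply, Finset.sum_apply, smul_eq_mul]
    rw [Finset.sum_eq_zero fun m _ => (g m).supp x z h, mul_zero]
  sum x := by
    have h1 := (hasSum_sum (s := Finset.range (θ x + 1)) fun m _ => (g m).sum x).mul_left
      ((θ x : ℝ) + 1)⁻¹
    have h2 : ((θ x : ℝ) + 1)⁻¹ * ∑ _i ∈ Finset.range (θ x + 1), (1 : ℝ) = 1 := by
      have : (0 : ℝ) < (θ x : ℝ) + 1 := by positivity
      simp only [Finset.sum_const, Finset.card_range, nsmul_eq_mul, mul_one]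
      push_cast
      field_simp
    rw [h2] at h1
    refine h1.congr_fun fun z => ?_
    simp only [lp.coeFn_smul, lp.coeFn_sum, Pi.smul_apply, Finset.sum_apply, smul_eq_mul]

lemma avg_step {V : Type*} [NormedAddCommGroup V] [NormedSpace ℝ V] (w : ℕ → V)
    (hw : ∀ m, ‖w m‖ = 1) (a : ℕ) :
    ‖((a : ℝ) + 1)⁻¹ • ∑ m ∈ Finset.range (a + 1), w m -
      (((a + 1 : ℕ) : ℝ) + 1)⁻¹ • ∑ m ∈ Finset.range (a + 1 + 1), w m‖ ≤ 2 / ((a : ℝ) + 2) := by
  have h0 : (0 : ℝ) < (a : ℝ) + 1 := by positivity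
  have hS : ‖∑ m ∈ Finset.range (a + 1), w m‖ ≤ (a : ℝ) + 1 := by
    refine (norm_sum_le _ _).trans ?_
    simp [hw]
  rw [Finset.sum_range_succ _ (a + 1)]
  set S := ∑ m ∈ Finset.range (a + 1), w m
  have : ((a : ℝ) + 1)⁻¹ • S - (((a + 1 : ℕ) : ℝ) + 1)⁻¹ • (S + w (a + 1)) =
      (((a : ℝ) + 1) * (a + 2))⁻¹ • S - ((a : ℝ) + 2)⁻¹ • w (a + 1) := by
    have e1 : (((a + 1 : ℕ) : ℝ) + 1) = (a : ℝ) + 2 := by push_cast; ring
    have e2 : (((a : ℝ) + 1) * (a + 2))⁻¹ = ((a : ℝ) + 1)⁻¹ - ((a : ℝ) + 2)⁻¹ := by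
      field_simp; ring
    rw [e1, e2, smul_add, sub_smul]
    abel
  rw [this]
  refine (norm_sub_le _ _).trans ?_
  rw [norm_smul, norm_smul, hw, Real.norm_of_nonneg (by positivity),
    Real.norm_of_nonneg (by positivity)]
  have h3 : (((a : ℝ) + 1) * (a + 2))⁻¹ * ‖S‖ ≤ (((a : ℝ) + 1) * (a + 2))⁻¹ * ((a : ℝ) + 1) :=
    mul_le_mul_of_nonneg_left hS (by positivity)
  have h4 : (((a : ℝ) + 1) * (a + 2))⁻¹ * ((a : ℝ) + 1) = ((a : ℝ) + 2)⁻¹ := by field_simp
  have h5 : 2 / ((a : ℝ) + 2) = ((a : ℝ) + 2)⁻¹ + ((a : ℝ) + 2)⁻¹ * 1 := by field_simp; ring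
  linarith

lemma avg_close {V : Type*} [NormedAddCommGroup V] [NormedSpace ℝ V] (w : ℕ → V)
    (hw : ∀ m, ‖w m‖ = 1) (a b : ℕ) (h1 : a ≤ b + 1) (h2 : b ≤ a + 1) :
    ‖((a : ℝ) + 1)⁻¹ • ∑ m ∈ Finset.range (a + 1), w m -
      ((b : ℝ) + 1)⁻¹ • ∑ m ∈ Finset.range (b + 1), w m‖ ≤ 2 / ((a : ℝ) + 1) := by
  rcases (by omega : b = a ∨ b = a + 1 ∨ a = b + 1) with rfl | rfl | rfl
  · simp only [sub_self, norm_zero]
    positivity
  · refine (avg_step w hw a).trans ?_
    gcongr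
    norm_num
  · rw [norm_sub_rev]
    refine (avg_step w hw b).trans (le_of_eq ?_)
    push_cast
    ring

lemma avg_bound {V : Type*} [NormedAddCommGroup V] [NormedSpace ℝ V] (u w : ℕ → V)
    (h2 : ∀ m, ‖u m - w m‖ ≤ 2) (a m0 : ℕ) (t : ℝ) (ht : 0 ≤ t)
    (h : ∀ m, m0 ≤ m → m < a → ‖u m - w m‖ ≤ t) :
    ‖((a : ℝ) + 1)⁻¹ • ∑ m ∈ Finset.range (a + 1), u m -
      ((a : ℝ) + 1)⁻¹ • ∑ m ∈ Finset.range (a + 1), w m‖ ≤ t + (2 * m0 + 2) / ((a : ℝ) + 1) := by
  have h0 : (0 : ℝ) < (a : ℝ) + 1 := by positivity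
  rw [← smul_sub, ← Finset.sum_sub_distrib, norm_smul, Real.norm_of_nonneg (by positivity)]
  have h3 : ‖∑ m ∈ Finset.range (a + 1), (u m - w m)‖ ≤ (a + 1) * t + (2 * m0 + 2) := by
    refine (norm_sum_le _ _).trans ?_
    rw [Finset.sum_range_succ]
    have h4 : ∑ m ∈ Finset.range a, ‖u m - w m‖ ≤
        ∑ m ∈ Finset.range a, (t + if m < m0 then (2 : ℝ) else 0) := by
      apply Finset.sum_le_sum
      intro m hm
      split_ifs with hm0
      · linarith [h2 m]
      · rw [add_zero]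
        exact h m (not_lt.1 hm0) (Finset.mem_range.1 hm)
    rw [Finset.sum_add_distrib, ← Finset.sum_filter] at h4
    simp only [Finset.sum_const, Finset.card_range, nsmul_eq_mul] at h4
    have h5 : (((Finset.range a).filter (fun m => m < m0)).card : ℝ) ≤ m0 := by
      have : ((Finset.range a).filter (fun m => m < m0)).card ≤ (Finset.range m0).card :=
        Finset.card_le_card fun m hm => Finset.mem_range.2 (Finset.mem_filter.1 hm).2
      rw [Finset.card_range] at this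
      exact_mod_cast this
    nlinarith [h2 a]
  calc ((a : ℝ) + 1)⁻¹ * ‖∑ m ∈ Finset.range (a + 1), (u m - w m)‖
      ≤ ((a : ℝ) + 1)⁻¹ * ((a + 1) * t + (2 * m0 + 2)) :=
        mul_le_mul_of_nonneg_left h3 (by positivity)
    _ = _ := by field_simp

/-- The condition `C` propagated along the enumeration up to depth `r`. -/
def Prop' (φ : ℕ → X → X) (C : ℕ → X → Prop) : ℕ → X → Prop
  | 0, _ => True
  | r + 1, x => C r x ∧ Prop' φ C r x ∧ ∀ i ≤ r, Prop' φ C r (φ i x)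

omit [MeasurableSpace X] in
lemma Prop'.cond {φ : ℕ → X → X} {C : ℕ → X → Prop} {r : ℕ} {x : X} (h : Prop' φ C r x)
    {m : ℕ} (hm : m < r) : C m x := by
  induction r with
  | zero => omega
  | succ r ih =>
    rcases (by omega : m = r ∨ m < r) with rfl | h'
    · exact h.1
    · exact ih h.2.1 h'

lemma measurableSet_Prop' {φ : ℕ → X → X} (hφ : ∀ n, Measurable (φ n)) {C : ℕ → X → Prop}
    (hC : ∀ m, MeasurableSet {x | C m x}) (r : ℕ) : MeasurableSet {x | Prop' φ C r x} := by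
  induction r with
  | zero => simp [Prop']
  | succ r ih =>
    simp only [Prop', ofPred_and, ofPred_forall]
    exact (hC r).inter (ih.inter (MeasurableSet.iInter fun i => MeasurableSet.iInter fun _ =>
      hφ i ih))

omit [MeasurableSpace X] in
lemma eventually_Prop' {φ : ℕ → X → X} {C : ℕ → ℕ → X → Prop}
    (hC : ∀ m x, ∀ᶠ j in atTop, C j m x) (r : ℕ) : ∀ x, ∀ᶠ j in atTop, Prop' φ (C j) r x := by
  induction r with
  | zero => intro x; simp [Prop']
  | succ r ih =>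
    intro x
    refine (hC r x).and ((ih x).and ?_)
    exact (eventually_all_finite (finite_le_nat r)).2 fun i _ => ih (φ i x)

/-- The two step collapse. -/
theorem collapse [MeasurableEq X] {φ : ℕ → X → X} (hφ : ∀ n, Measurable (φ n))
    (hφ2 : ∀ n x, E x (φ n x)) (hφ3 : ∀ x y, E x y → ∃ n, φ n x = y) (g : ℕ → ℕ → Mean E) :
    ∃ h : ℕ → Mean E, ∀ x y, E x y → ∀ t : ℝ,
      (∀ᶠ m in atTop, ∀ η > 0, ∀ᶠ j in atTop, ‖(g m j).v x - (g m j).v y‖ ≤ t + η) →
      ∀ η > 0, ∀ᶠ j in atTop, ‖(h j).v x - (h j).v y‖ ≤ t + η := by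
  classical
  let ε : ℕ → X → X → ℝ := fun m x y => limsup (fun j => ‖(g m j).v x - (g m j).v y‖) atTop
  let C : ℕ → ℕ → X → Prop := fun j m x =>
    ∀ i ≤ m, ‖(g m j).v x - (g m j).v (φ i x)‖ ≤ ε m x (φ i x) + 1 / ((m : ℝ) + 1)
  have hCm : ∀ j m, MeasurableSet {x | C j m x} := by
    intro j m
    simp only [C, ofPred_forall]
    refine MeasurableSet.iInter fun i => MeasurableSet.iInter fun _ => ?_
    refine measurableSet_le ((g m j).measurable_dist hφ hφ3 (hφ i) (hφ2 i)) ?_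
    exact (Measurable.limsup fun j => (g m j).measurable_dist hφ hφ3 (hφ i) (hφ2 i)).add_const _
  have hCe : ∀ m x, ∀ᶠ j in atTop, C j m x := by
    intro m x
    refine (eventually_all_finite (finite_le_nat m)).2 fun i _ => ?_
    refine (eventually_lt_of_limsup_lt (b := ε m x (φ i x) + 1 / ((m : ℝ) + 1))
      (lt_add_of_pos_right _ (by positivity)) ?_).mono fun j hj => hj.le
    exact isBoundedUnder_of ⟨2, fun j => (g m j).dist_le _ _⟩
  let θ : ℕ → X → ℕ := fun j x => Nat.findGreatest (fun r => Prop' φ (C j) r x) j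
  have hθm : ∀ j, Measurable (θ j) := fun j =>
    measurable_findGreatest fun k _ => measurableSet_Prop' hφ (hCm j) k
  have hθ1 : ∀ j x, Prop' φ (C j) (θ j x) x := fun j x =>
    Nat.findGreatest_spec (P := fun r => Prop' φ (C j) r x) (Nat.zero_le j) trivial
  have hθ2 : ∀ x, Tendsto (fun j => θ j x) atTop atTop := by
    intro x
    rw [tendsto_atTop]
    intro r
    filter_upwards [eventually_Prop' hCe r x, eventually_ge_atTop r] with j h1 h2
    exact Nat.le_findGreatest h2 h1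
  have hθ3 : ∀ j x i, i < θ j x → θ j x ≤ θ j (φ i x) + 1 := by
    intro j x i hi
    obtain ⟨r, hr⟩ : ∃ r, θ j x = r + 1 := ⟨θ j x - 1, by omega⟩
    have h1 := hθ1 j x
    rw [hr] at h1
    have h2 : θ j x ≤ j := Nat.findGreatest_le j
    have h3 : r ≤ θ j (φ i x) := Nat.le_findGreatest (by omega) (h1.2.2 i (by omega))
    omega
  refine ⟨fun j => Mean.avg (fun m => g m j) (θ j) (hθm j), ?_⟩
  intro x y hxy t ht η hη
  obtain ⟨i, hi⟩ := hφ3 x y hxy
  obtain ⟨i', hi'⟩ := hφ3 y x (E.symm hxy)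
  have ht0 : 0 ≤ t := by
    obtain ⟨m, hm⟩ := ht.exists
    refine le_of_forall_pos_le_add fun δ hδ => ?_
    obtain ⟨j, hj⟩ := (hm δ hδ).exists
    exact (norm_nonneg _).trans hj
  have hε : ∀ᶠ m in atTop, ε m x y ≤ t := by
    filter_upwards [ht] with m hm
    refine le_of_forall_pos_le_add fun δ hδ => ?_
    exact limsup_le_of_le (isCoboundedUnder_le_of_le atTop (x := 0) fun j => norm_nonneg _)
      (hm δ hδ)
  have hsm : ∀ᶠ m : ℕ in atTop, 1 / ((m : ℝ) + 1) ≤ η / 2 :=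
    tendsto_one_div_add_atTop_nhds_zero_nat.eventually (ge_mem_nhds (half_pos hη))
  obtain ⟨m0, hm0⟩ := eventually_atTop.1 (hε.and (hsm.and (eventually_ge_atTop i)))
  have hlim : Tendsto (fun j => (2 * (m0 : ℝ) + 4) * (1 / ((θ j x : ℝ) + 1))) atTop (𝓝 0) := by
    have := (tendsto_one_div_add_atTop_nhds_zero_nat.comp (hθ2 x)).const_mul (2 * (m0 : ℝ) + 4)
    simpa using this
  filter_upwards [hlim.eventually (ge_mem_nhds (half_pos hη)), (hθ2 x).eventually_gt_atTop i,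
    (hθ2 y).eventually_gt_atTop i'] with j h1 h2 h3
  have h4 := hθ3 j x i h2
  have h5 := hθ3 j y i' h3
  rw [hi] at h4
  rw [hi'] at h5
  have h6 := avg_close (fun m => (g m j).v y) (fun m => (g m j).norm_eq y) _ _ h4 h5
  have h7 := avg_bound (fun m => (g m j).v x) (fun m => (g m j).v y)
    (fun m => (g m j).dist_le x y) (θ j x) m0 (t + η / 2) (by positivity) (by
      intro m hm hm'
      obtain ⟨a1, a2, a3⟩ := hm0 m hm
      have := (hθ1 j x).cond hm' i a3
      rw [hi] at this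
      linarith)
  have h8 := norm_sub_le_norm_sub_add_norm_sub
    (((θ j x : ℝ) + 1)⁻¹ • ∑ m ∈ Finset.range (θ j x + 1), (g m j).v x)
    (((θ j x : ℝ) + 1)⁻¹ • ∑ m ∈ Finset.range (θ j x + 1), (g m j).v y)
    (((θ j y : ℝ) + 1)⁻¹ • ∑ m ∈ Finset.range (θ j y + 1), (g m j).v y)
  have h9 : (2 * (m0 : ℝ) + 4) * (1 / ((θ j x : ℝ) + 1)) =
      (2 * m0 + 2) / ((θ j x : ℝ) + 1) + 2 / ((θ j x : ℝ) + 1) := by ring
  change ‖((θ j x : ℝ) + 1)⁻¹ • ∑ m ∈ Finset.range (θ j x + 1), (g m j).v x -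
    ((θ j y : ℝ) + 1)⁻¹ • ∑ m ∈ Finset.range (θ j y + 1), (g m j).v y‖ ≤ t + η
  linarith

/-- Every upper limit along `F` of the defects of a sequence of means is matched by an ordinary
upper limit for another sequence of means. -/
def Good (E : Setoid X) (F : Filter ℕ) : Prop :=
  ∀ f : ℕ → Mean E, ∃ h : ℕ → Mean E, ∀ x y, E x y → ∀ t : ℝ,
    (∀ᶠ n in F, ‖(f n).v x - (f n).v y‖ ≤ t) →
      ∀ η > 0, ∀ᶠ j in atTop, ‖(h j).v x - (h j).v y‖ ≤ t + η

theorem good_cofinite (E : Setoid X) : Good E cofinite := by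
  intro f
  refine ⟨f, fun x y _ t ht η hη => ?_⟩
  rw [Nat.cofinite_eq_atTop] at ht
  exact ht.mono fun j hj => by linarith

theorem good_bind [MeasurableEq X] {φ : ℕ → X → X} (hφ : ∀ n, Measurable (φ n))
    (hφ2 : ∀ n x, E x (φ n x)) (hφ3 : ∀ x y, E x y → ∃ n, φ n x = y) (e : ℕ × ℕ → ℕ)
    {G : ℕ → Filter ℕ} (hG : ∀ m, Good E (G m)) :
    Good E (Filter.bind cofinite fun m => Filter.map (fun n => e (m, n)) (G m)) := by
  intro f
  choose g hg using fun m => hG m fun n => f (e (m, n))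
  obtain ⟨h, hh⟩ := collapse hφ hφ2 hφ3 g
  refine ⟨h, fun x y hxy t ht => hh x y hxy t ?_⟩
  rw [eventually_bind, Nat.cofinite_eq_atTop] at ht
  exact ht.mono fun m hm => hg m x y hxy t hm

end Pool.Agent.P.MP_91e65d_lc
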