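import Mathlib

set_option autoImplicit false

namespace Pool.Agent.P.MP_91e65d_lc

/-- The filter `F ⊗ (G m)`: a set `A` belongs to it iff
`{m | {n | e (m, n) ∈ A} ∈ G m} ∈ F`. -/
def filterProd (e : ℕ × ℕ ≃ ℕ) (F : Filter ℕ) (G : ℕ → Filter ℕ) : Filter ℕ :=
  Filter.bind F fun m => Filter.map (fun n => e (m, n)) (G m)

/-- `IsFr e α F`: the filter `F` is the iterated Frechet filter of rank `α` for some choice of
increasing sequences converging to the limit ordinals met in the recursion. -/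
inductive IsFr (e : ℕ × ℕ ≃ ℕ) : Ordinal.{0} → Filter ℕ → Prop
  | one : IsFr e 1 Filter.cofinite
  | succ (α : Ordinal.{0}) (F : Filter ℕ) :
      IsFr e α F → IsFr e (α + 1) (filterProd e Filter.cofinite fun _ => F)
  | limit (l : Ordinal.{0}) (a : ℕ → Ordinal.{0}) (G : ℕ → Filter ℕ) :
      Order.IsSuccLimit l → Monotone a → (∀ n, a n < l) → IsLUB (Set.range a) l →
      (∀ n, IsFr e (a n) (G n)) → IsFr e l (filterProd e Filter.cofinite G)

/-- There are Borel `f n : E → [0, ∞)` whose sections are probability vectors on the classes and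
are asymptotically invariant in `ℓ¹` norm along the filter `F`. -/
def AmenableAlong {X : Type*} [MeasurableSpace X] (E : Setoid X) (F : Filter ℕ) : Prop :=
  ∃ f : ℕ → {p : X × X // E p.1 p.2} → ℝ,
    (∀ n, Measurable (f n)) ∧ (∀ n p, 0 ≤ f n p) ∧
    (∀ n x, HasSum (fun z : {z // E x z} => f n ⟨(x, z.1), z.2⟩) 1) ∧
    ∀ (x y : X) (h : E x y), Filter.Tendsto
      (fun n => ∑' z : {z // E x z},
        |f n ⟨(x, z.1), z.2⟩ - f n ⟨(y, z.1), E.trans (E.symm h) z.2⟩|) F (nhds 0)

end Pool.Agent.P.MP_91e65d_lc
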