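import Pool.Agent.P.MP_91e65d_lc.Defs
import Pool.Agent.P.MP_91e65d_lc.Core

set_option autoImplicit false

namespace Pool.Agent.P.MP_91e65d_lc

open Set MeasureTheory Filter Topology

variable {X : Type*} [MeasurableSpace X] {E : Setoid X}

lemma Mean.dist_eq (g : Mean E) {x y : X} (h : E x y) :
    ∑' z : {z // E x z}, |g.v x z.1 - g.v y z.1| = ‖g.v x - g.v y‖ := by
  rw [← (hasSum_abs _).tsum_eq]
  refine tsum_subtype_eq_of_support_subset (s := {z | E x z})
    (f := fun z => |g.v x z - g.v y z|) ?_
  intro z hz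
  by_contra hn
  have h2 : ¬ E y z := fun h' => hn (E.trans h h')
  exact hz (by simp [g.supp x z hn, g.supp y z h2])

lemma amenableAlong_iff (hE : MeasurableSet {p : X × X | E p.1 p.2}) (F : Filter ℕ) :
    AmenableAlong E F ↔ ∃ g : ℕ → Mean E, ∀ x y, E x y →
      Tendsto (fun n => ‖(g n).v x - (g n).v y‖) F (𝓝 0) := by
  classical
  constructor
  · rintro ⟨f, h1, h2, h3, h4⟩
    let u : ℕ → X → X → ℝ := fun n x z => if h : E x z then f n ⟨(x, z), h⟩ else 0
    have hu0 : ∀ n x z, 0 ≤ u n x z := by
      intro n x z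
      simp only [u]
      split_ifs
      · exact h2 _ _
      · exact le_rfl
    have hus : ∀ n x, HasSum (u n x) 1 := by
      intro n x
      refine (hasSum_subtype_iff_of_support_subset (s := {z | E x z}) ?_).1 ?_
      · intro z hz
        by_contra hn
        exact hz (dif_neg hn)
      · refine (h3 n x).congr_fun fun z => ?_
        exact dif_pos z.2
    have hmem : ∀ n x, Memℓp (u n x) 1 := by
      intro n x
      apply memℓp_gen
      simpa [abs_of_nonneg (hu0 n x _)] using (hus n x).summable
    let g : ℕ → Mean E := fun n =>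
      { v := fun x => ⟨u n x, hmem n x⟩
        meas := Measurable.dite (s := {p : X × X | E p.1 p.2}) (h1 n) measurable_const hE
        nonneg := hu0 n
        supp := fun x z h => dif_neg h
        sum := hus n }
    refine ⟨g, fun x y hxy => ?_⟩
    refine (h4 x y hxy).congr fun n => ?_
    rw [← (g n).dist_eq hxy]
    refine tsum_congr fun z => ?_
    have e1 : (g n).v x z.1 = f n ⟨(x, z.1), z.2⟩ := dif_pos z.2
    have e2 : (g n).v y z.1 = f n ⟨(y, z.1), E.trans (E.symm hxy) z.2⟩ :=
      dif_pos (E.trans (E.symm hxy) z.2)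
    rw [e1, e2]
  · rintro ⟨g, hg⟩
    refine ⟨fun n p => (g n).v p.1.1 p.1.2, fun n => (g n).meas.comp measurable_subtype_coe,
      fun n p => (g n).nonneg _ _, fun n x => ?_, fun x y hxy => ?_⟩
    · refine (hasSum_subtype_iff_of_support_subset (s := {z | E x z}) ?_).2 ((g n).sum x)
      intro z hz
      by_contra hn
      exact hz ((g n).supp x z hn)
    · refine (hg x y hxy).congr fun n => ?_
      exact ((g n).dist_eq hxy).symm

theorem good_of_isFr [StandardBorelSpace X] (hE : MeasurableSet {p : X × X | E p.1 p.2})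
    (hc : ∀ x, {y | E x y}.Countable) {e : ℕ × ℕ ≃ ℕ} {α : Ordinal.{0}} {F : Filter ℕ}
    (hF : IsFr e α F) : Good E F := by
  obtain ⟨φ, hφ, hφ2, hφ3⟩ := Pool.Agent.Lib.Helper36.exists_enumeration E hE hc
  induction hF with
  | one => exact good_cofinite E
  | succ α F _ ih => exact good_bind hφ hφ2 hφ3 e fun _ => ih
  | limit l a G _ _ _ _ _ ih => exact good_bind hφ hφ2 hφ3 e ih

theorem amenable_of_good (hE : MeasurableSet {p : X × X | E p.1 p.2}) {F : Filter ℕ}
    (hF : Good E F) (h : AmenableAlong E F) : AmenableAlong E cofinite := by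
  rw [amenableAlong_iff hE] at h ⊢
  obtain ⟨f, hf⟩ := h
  obtain ⟨g, hg⟩ := hF f
  refine ⟨g, fun x y hxy => ?_⟩
  rw [Nat.cofinite_eq_atTop, Metric.tendsto_nhds]
  intro η hη
  have h1 := (hf x y hxy).eventually (ge_mem_nhds (show (0 : ℝ) < η / 3 by positivity))
  filter_upwards [hg x y hxy (η / 3) h1 (η / 3) (by positivity)] with j hj
  rw [dist_zero_right, norm_norm]
  linarith

/-- Sanity check: every countable ordinal `α ≥ 1` has an iterated Frechet filter. -/
theorem exists_isFr (e : ℕ × ℕ ≃ ℕ) (α : Ordinal.{0}) (h1 : 1 ≤ α) (h2 : α < Ordinal.omega 1) :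
    ∃ F, IsFr e α F := by
  induction α using Ordinal.limitRecOn with
  | zero => simp at h1
  | add_one β ih =>
    rcases eq_or_ne β 0 with rfl | hβ
    · exact ⟨cofinite, by simpa using IsFr.one⟩
    · obtain ⟨F, hF⟩ := ih (Order.one_le_iff_ne_zero.2 hβ) ((lt_add_one β).trans h2)
      exact ⟨_, IsFr.succ β F hF⟩
  | limit l hl ih =>
    have hcount : (Iio l).Countable := by
      rw [← Cardinal.le_aleph0_iff_set_countable, Cardinal.mk_Iio_ordinal]
      have : l.card ≤ Cardinal.aleph0 := by
        rw [← Cardinal.ord_aleph, Cardinal.lt_ord, ← Cardinal.succ_aleph0, Order.lt_succ_iff] at h2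
        exact h2
      rw [← Cardinal.lift_aleph0.{1, 0}, Cardinal.lift_le]
      exact this
    have h1l : (1 : Ordinal.{0}) < l := by simpa using hl.succ_lt hl.bot_lt
    obtain ⟨b, hb⟩ := hcount.exists_eq_range ⟨1, h1l⟩
    let a : ℕ → Ordinal.{0} := fun n => max 1 (partialSups b n)
    have hbl : ∀ n, b n < l := fun n => by
      have : b n ∈ Iio l := by rw [hb]; exact mem_range_self n
      exact this
    have hal : ∀ n, a n < l := fun n => by
      refine max_lt h1l ?_
      induction n with
      | zero => simpa using hbl 0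
      | succ n ihn =>
        rw [partialSups_add_one]
        exact sup_lt_iff.2 ⟨ihn, hbl _⟩
    choose G hG using fun n => ih (a n) (hal n) (le_max_left _ _) ((hal n).trans h2)
    refine ⟨_, IsFr.limit l a G hl ?_ hal ⟨?_, ?_⟩ hG⟩
    · intro m n hmn
      exact max_le_max le_rfl ((partialSups b).monotone hmn)
    · rintro _ ⟨n, rfl⟩
      exact (hal n).le
    · intro c hc
      by_contra hlt
      rw [not_le] at hlt
      have : Order.succ c ∈ Iio l := hl.succ_lt hlt
      rw [hb] at this
      obtain ⟨n, hn⟩ := this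
      have h3 : b n ≤ c := ((le_partialSups b n).trans (le_max_right _ _)).trans (hc ⟨n, rfl⟩)
      rw [hn] at h3
      exact absurd h3 (not_le.2 (Order.lt_succ c))

end Pool.Agent.P.MP_91e65d_lc
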